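import Mathlib
import Pool.Agent.H598R3.FZ_GNSF
import Pool.Agent.H61R2.FZ_TRC
import Pool.Agent.R293.RFP
import Pool.Agent.R293.FC.NoChar

/-!
# MP_88a42c_an: `A ≇ C([0,1]) *_r A` for some infinite reduced free products `A`

Let `C_k = ℂ × ℂ` with the faithful trace `σ_k(a, b) = t_k a + (1 - t_k) b`, where `0 < t_k` and
all partial sums of `∑ t_k` are `< 1`, and let `A` be the reduced free product of the `(C_k, σ_k)`.

The projections `p_k = (1, 0) ∈ C_k` satisfy `∑_{k<n} σ(p_k) < 1`, so `h_n = ∑_{k<n} p_k` is not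
invertible: the matrix `(p_j h_n⁻¹ p_k)` would be a projection of trace `1` under `diag(p_k)`.  Hence
there are `b_m` of norm `1` with `p_k b_m → 0` for all `k`, and `a b_m - χ(a) b_m → 0` defines a
character `χ` of `A`.

`B = C([0,1]) *_r A` has no character `χ`: for a projection `k ∈ A` of trace `< 1` with `χ(k) = 1`
and a bump function `g` of small trace with `χ(g) = 1` freeness gives `‖g k‖ < 1`.
-/

set_option autoImplicit false

namespace Pool.Agent.Results.MP_88a42c_an.NotAbsorbing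

/-- `μ` is a state. -/
def IsState {D : Type} [CStarAlgebra D] (μ : D →ₗ[ℂ] ℂ) : Prop :=
  μ 1 = 1 ∧ ∀ x, 0 ≤ (μ (star x * x)).re ∧ (μ (star x * x)).im = 0

/-- `μ` is a faithful tracial state. -/
def IsFaithfulTrace {D : Type} [CStarAlgebra D] (μ : D →ₗ[ℂ] ℂ) : Prop :=
  IsState μ ∧ (∀ x y, μ (x * y) = μ (y * x)) ∧ ∀ x, μ (star x * x) = 0 → x = 0

/-- `(D, ρ)`, with the embeddings `e j`, is the reduced free product of the `(A j, ω j)`: `ρ` is a
state, `ρ ∘ e j = ω j`, the copies `e j (A j)` are free with respect to `ρ` (`ρ` vanishes on the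
products `e j₁ x₁ ⋯ e jₙ xₙ`, `n ≥ 1`, with `j₁ ≠ j₂ ≠ ⋯` and `ω j₁ x₁ = ⋯ = ω jₙ xₙ = 0`) and
generate `D`, and the GNS representation of `ρ` is faithful. -/
structure IsReducedFreeProduct {J : Type} (A : J → Type) [∀ j, CStarAlgebra (A j)]
    (ω : ∀ j, A j →ₗ[ℂ] ℂ) {D : Type} [CStarAlgebra D] (ρ : D →ₗ[ℂ] ℂ)
    (e : ∀ j, A j →⋆ₐ[ℂ] D) : Prop where
  state : IsState ρ
  restrict : ∀ j x, ρ (e j x) = ω j x
  free : ∀ w : List (Σ j, A j), w ≠ [] → w.IsChain (fun a b => a.1 ≠ b.1) →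
    (∀ z ∈ w, ω z.1 z.2 = 0) → ρ ((w.map fun z => e z.1 z.2).prod) = 0
  generate : (StarAlgebra.adjoin ℂ (⋃ j, Set.range (e j))).topologicalClosure = ⊤
  gns_faithful : ∀ a, (∀ x, ρ (star (a * x) * (a * x)) = 0) → a = 0

/-- The state `(a, b) ↦ t a + (1 - t) b` of `ℂ × ℂ`. -/
noncomputable def weight (t : ℝ) : ℂ × ℂ →ₗ[ℂ] ℂ where
  toFun x := (t : ℂ) * x.1 + (1 - (t : ℂ)) * x.2
  map_add' x y := by
    show (t : ℂ) * (x.1 + y.1) + (1 - (t : ℂ)) * (x.2 + y.2) = _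
    ring
  map_smul' c x := by
    show (t : ℂ) * (c * x.1) + (1 - (t : ℂ)) * (c * x.2) =
      c * ((t : ℂ) * x.1 + (1 - (t : ℂ)) * x.2)
    ring

/-- The family of two algebras `A` and `B`. -/
def Two (A B : Type) : Bool → Type
  | true => A
  | false => B

instance twoCStar (A B : Type) [CStarAlgebra A] [CStarAlgebra B] : ∀ b, CStarAlgebra (Two A B b)
  | true => (inferInstance : CStarAlgebra A)
  | false => (inferInstance : CStarAlgebra B)

/-- The family of two functionals `φ` and `ψ`. -/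
def twoFun {A B : Type} [CStarAlgebra A] [CStarAlgebra B] (φ : A →ₗ[ℂ] ℂ) (ψ : B →ₗ[ℂ] ℂ) :
    ∀ b, Two A B b →ₗ[ℂ] ℂ
  | true => φ
  | false => ψ

/-- `(D, ρ)` is the reduced free product of `(A, φ)` and `(B, ψ)`. -/
def IsFreeProduct {A B : Type} [CStarAlgebra A] [CStarAlgebra B] (φ : A →ₗ[ℂ] ℂ)
    (ψ : B →ₗ[ℂ] ℂ) {D : Type} [CStarAlgebra D] (ρ : D →ₗ[ℂ] ℂ) : Prop :=
  ∃ e : ∀ b, Two A B b →⋆ₐ[ℂ] D, IsReducedFreeProduct (Two A B) (twoFun φ ψ) ρ e

/-- The Lebesgue state `f ↦ ∫₀¹ f(t) dt` of `C([0,1])`. -/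
noncomputable def lebesgue : C(unitInterval, ℂ) →ₗ[ℂ] ℂ where
  toFun f := ∫ t : unitInterval, f t
  map_add' f g := by
    show ∫ t : unitInterval, (f t + g t) = _
    exact MeasureTheory.integral_add (f.continuous.integrable_of_hasCompactSupport
      (HasCompactSupport.of_compactSpace _)) (g.continuous.integrable_of_hasCompactSupport
      (HasCompactSupport.of_compactSpace _))
  map_smul' c f := by
    show ∫ t : unitInterval, c * f t = _
    exact MeasureTheory.integral_const_mul c _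

section conversions

open scoped ComplexOrder

lemma state_of {D : Type} [CStarAlgebra D] {μ : D →ₗ[ℂ] ℂ} (h1 : μ 1 = 1)
    (h2 : ∀ x, 0 ≤ μ (star x * x)) : IsState μ := by
  refine ⟨h1, fun x => ?_⟩
  have h := h2 x
  rw [Complex.nonneg_iff] at h
  exact ⟨h.1, h.2.symm⟩

lemma IsState.nonneg {D : Type} [CStarAlgebra D] {μ : D →ₗ[ℂ] ℂ} (h : IsState μ) (x : D) :
    0 ≤ μ (star x * x) := by
  rw [Complex.nonneg_iff]
  exact ⟨(h.2 x).1, (h.2 x).2.symm⟩

lemma to_rfp {J : Type} {A : J → Type} [∀ j, CStarAlgebra (A j)] {ω : ∀ j, A j →ₗ[ℂ] ℂ}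
    {D : Type} [CStarAlgebra D] {ρ : D →ₗ[ℂ] ℂ} {e : ∀ j, A j →⋆ₐ[ℂ] D}
    (h : IsReducedFreeProduct A ω ρ e) :
    Pool.Agent.H923R2.FZ.IsRFP A (fun j => (ω j : A j → ℂ)) ρ e where
  one := h.state.1
  nonneg := h.state.nonneg
  tr := h.restrict
  free := h.free
  gen := h.generate
  gns := h.gns_faithful

lemma of_rfp {J : Type} {A : J → Type} [∀ j, CStarAlgebra (A j)] {ω : ∀ j, A j →ₗ[ℂ] ℂ}
    {D : Type} [CStarAlgebra D] {ρ : D →ₗ[ℂ] ℂ} {e : ∀ j, A j →⋆ₐ[ℂ] D}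
    (h : Pool.Agent.H923R2.FZ.IsRFP A (fun j => (ω j : A j → ℂ)) ρ e) :
    IsReducedFreeProduct A ω ρ e where
  state := state_of h.one h.nonneg
  restrict := h.tr
  free := h.free
  generate := h.gen
  gns_faithful := h.gns

lemma exists_product {A B : Type} [CStarAlgebra A] [CStarAlgebra B] {φ : A →ₗ[ℂ] ℂ}
    {ψ : B →ₗ[ℂ] ℂ} (h1 : IsState φ) (h2 : IsState ψ) :
    ∃ (D : Type) (_ : CStarAlgebra D) (ρ : D →ₗ[ℂ] ℂ), IsFreeProduct φ ψ ρ := by
  obtain ⟨D, i, ρ, e, h⟩ := Pool.Agent.R293.RFP.ex Bool (Two A B) (twoFun φ ψ)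
    (fun b => match b with
      | true => h1.1
      | false => h2.1)
    (fun b => match b with
      | true => h1.nonneg
      | false => h2.nonneg)
  exact ⟨D, i, ρ, e, of_rfp h⟩

lemma exists_family {C : ℕ → Type} [∀ k, CStarAlgebra (C k)] {σ : ∀ k, C k →ₗ[ℂ] ℂ}
    (h : ∀ k, IsState (σ k)) :
    ∃ (D : Type) (_ : CStarAlgebra D) (ρ : D →ₗ[ℂ] ℂ) (e : ∀ k, C k →⋆ₐ[ℂ] D),
      IsReducedFreeProduct C σ ρ e := by
  obtain ⟨D, i, ρ, e, h⟩ := Pool.Agent.R293.RFP.ex ℕ C σ (fun k => (h k).1)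
    (fun k => (h k).nonneg)
  exact ⟨D, i, ρ, e, of_rfp h⟩

lemma to_rfp' {J : Type} {A : J → Type} [∀ j, CStarAlgebra (A j)] {ω : ∀ j, A j →ₗ[ℂ] ℂ}
    {D : Type} [CStarAlgebra D] {ρ : D →ₗ[ℂ] ℂ} {e : ∀ j, A j →⋆ₐ[ℂ] D}
    (h : IsReducedFreeProduct A ω ρ e) (ht : ∀ j x y, ω j (x * y) = ω j (y * x)) :
    Pool.Agent.H923R2.FP.RFP A (fun j => (ω j : A j → ℂ)) ρ e :=
  Pool.Agent.H923R2.FZ.T_GNSF.t_GNSF Pool.Agent.H923R2.FZ.T_TRC.t_TRC J A _ D ρ e ht (to_rfp h)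

end conversions

lemma lebesgue_state : IsState lebesgue := by
  constructor
  · show ∫ t : unitInterval, (1 : ℂ) = 1
    simp
  · intro x
    have h : lebesgue (star x * x) = ((∫ t : unitInterval, ‖x t‖ ^ 2 : ℝ) : ℂ) := by
      show ∫ t : unitInterval, (star x * x) t = _
      rw [← integral_complex_ofReal]
      refine MeasureTheory.integral_congr_ae (Filter.Eventually.of_forall fun t => ?_)
      show star (x t) * x t = ((‖x t‖ ^ 2 : ℝ) : ℂ)
      rw [Complex.ofReal_pow, ← Complex.conj_mul']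
      rfl
    rw [h, Complex.ofReal_re, Complex.ofReal_im]
    exact ⟨MeasureTheory.integral_nonneg fun t => by positivity, rfl⟩

lemma weight_apply (t : ℝ) (x : ℂ × ℂ) : weight t x = (t : ℂ) * x.1 + (1 - (t : ℂ)) * x.2 := rfl

lemma weight_sq (t : ℝ) (x : ℂ × ℂ) :
    weight t (star x * x) = ((t * ‖x.1‖ ^ 2 + (1 - t) * ‖x.2‖ ^ 2 : ℝ) : ℂ) := by
  rw [weight_apply]
  show (t : ℂ) * (star x.1 * x.1) + (1 - (t : ℂ)) * (star x.2 * x.2) = _
  have h : ∀ z : ℂ, star z * z = ((‖z‖ ^ 2 : ℝ) : ℂ) := fun z => by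
    rw [Complex.ofReal_pow, ← Complex.conj_mul']
    rfl
  rw [h, h]
  push_cast
  ring

lemma weight_trace {t : ℝ} (h0 : 0 < t) (h1 : t < 1) : IsFaithfulTrace (weight t) := by
  refine ⟨⟨?_, fun x => ?_⟩, fun x y => by rw [mul_comm], fun x hx => ?_⟩
  · rw [weight_apply]
    show (t : ℂ) * 1 + (1 - (t : ℂ)) * 1 = 1
    ring
  · rw [weight_sq, Complex.ofReal_re, Complex.ofReal_im]
    have : 0 < 1 - t := by linarith
    exact ⟨by positivity, rfl⟩
  · rw [weight_sq, Complex.ofReal_eq_zero] at hx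
    have h2 : 0 < 1 - t := by linarith
    have h3 : 0 ≤ t * ‖x.1‖ ^ 2 := by positivity
    have h4 : 0 ≤ (1 - t) * ‖x.2‖ ^ 2 := by positivity
    have h5 : t * ‖x.1‖ ^ 2 = 0 := by linarith
    have h6 : (1 - t) * ‖x.2‖ ^ 2 = 0 := by linarith
    have h7 : x.1 = 0 := by
      rcases mul_eq_zero.1 h5 with h | h
      · exact absurd h h0.ne'
      · exact norm_eq_zero.1 (pow_eq_zero_iff two_ne_zero |>.1 h)
    have h8 : x.2 = 0 := by
      rcases mul_eq_zero.1 h6 with h | h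
      · exact absurd h h2.ne'
      · exact norm_eq_zero.1 (pow_eq_zero_iff two_ne_zero |>.1 h)
    exact Prod.ext h7 h8

open Pool.Agent.R293.FC Pool.Agent.H923R2 in
/-- the algebra `A` has a character -/
lemma has_char {t : ℕ → ℝ} (hs : ∀ n, ∑ k ∈ Finset.range n, t k < 1)
    {A : Type} [CStarAlgebra A] {φ : A →ₗ[ℂ] ℂ} {e : ∀ _ : ℕ, ℂ × ℂ →⋆ₐ[ℂ] A}
    (h : IsReducedFreeProduct (fun _ => ℂ × ℂ) (fun k => weight (t k)) φ e) :
    Nonempty (A →ₐ[ℂ] ℂ) := by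
  have h2 := to_rfp' h (fun j x y => by rw [mul_comm])
  have hp : ∀ k, e k (1, 0) * e k (1, 0) = e k (1, 0) := fun k => by
    rw [← map_mul]; congr 1; simp
  have hst : ∀ k, star (e k (1, 0)) = e k (1, 0) := fun k => by
    rw [← map_star]; congr 1
    exact Prod.ext (by simp) (by simp)
  have hτ : ∀ k, φ (e k (1, 0)) = t k := fun k => by
    rw [h.restrict k (1, 0), weight_apply]; simp
  obtain ⟨b, hb, hb0⟩ := exists_seq h2.fts (fun k => e k (1, 0)) hp hst (fun n => by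
    have : ∑ k ∈ Finset.range n, (φ (e k (1, 0))).re = ∑ k ∈ Finset.range n, t k :=
      Finset.sum_congr rfl fun k _ => by rw [hτ, Complex.ofReal_re]
    rw [this]; exact hs n)
  refine exists_char hb (⋃ j, Set.range (e j)) ?_ ?_ h.generate
  · intro a ha
    obtain ⟨k, ⟨x, hx⟩⟩ := Set.mem_iUnion.1 ha
    subst hx
    have h3 : R b (e k (1, 0)) 0 := by
      show Filter.Tendsto _ _ _
      refine (hb0 k).congr fun m => ?_
      rw [zero_smul, sub_zero]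
    have h4 : e k x = (x.1 - x.2) • e k (1, 0) + x.2 • 1 := by
      rw [← map_one (e k), ← map_smul, ← map_smul, ← map_add]
      congr 1
      exact Prod.ext (by simp) (by simp)
    rw [h4]
    exact ⟨_, R_add (R_smul _ h3) (R_smul _ (R_one b))⟩
  · intro a ha
    obtain ⟨k, ⟨x, hx⟩⟩ := Set.mem_iUnion.1 ha
    exact Set.mem_iUnion.2 ⟨k, star x, by rw [map_star, hx]⟩

open Pool.Agent.R293.FC Pool.Agent.H923R2 in
/-- the algebra `B` has no character -/
lemma no_char {t : ℕ → ℝ} (h0 : 0 < t 0) (h1 : t 0 < 1)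
    {A : Type} [CStarAlgebra A] {φ : A →ₗ[ℂ] ℂ} {e : ∀ _ : ℕ, ℂ × ℂ →⋆ₐ[ℂ] A}
    (h : IsReducedFreeProduct (fun _ => ℂ × ℂ) (fun k => weight (t k)) φ e)
    {B : Type} [CStarAlgebra B] {ψ : B →ₗ[ℂ] ℂ} (hB : IsFreeProduct lebesgue φ ψ) :
    IsEmpty (B →ₐ[ℂ] ℂ) := by
  have h2 := to_rfp' h (fun j x y => by rw [mul_comm])
  obtain ⟨f, hf⟩ := hB
  have h3 := to_rfp' hf (fun j => match j with
    | true => fun x y => by
        have : ∀ x y : C(unitInterval, ℂ), lebesgue (x * y) = lebesgue (y * x) := fun x y => by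
          rw [mul_comm]
        exact this x y
    | false => h2.fts.comm)
  obtain ⟨c, i, h4, h5, h6⟩ : ∃ (c : C(unitInterval, ℂ) →⋆ₐ[ℂ] B) (i : A →⋆ₐ[ℂ] B),
      FP.FreeFam ψ (fun b : Bool => if b then c.range else i.range) ∧
      (∀ x, ψ (c x) = lebesgue x) ∧ ∀ x, ψ (i x) = φ x := by
    refine ⟨f true, f false, ?_, hf.restrict true, hf.restrict false⟩
    intro w hw hz hc
    refine h3.free w hw (fun z hz' => ?_) hc
    have h7 := hz z hz'
    obtain ⟨b, x⟩ := z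
    cases b
    · exact h7
    · exact h7
  have h7 : ψ (i (e 0 (1, 0))) = t 0 := by
    rw [h6, h.restrict 0 (1, 0), weight_apply]; simp
  refine Pool.Agent.R293.FC.no_char h3.fts c h5 i.range h4 (i (e 0 (1, 0))) ⟨_, rfl⟩ ?_ ?_ ?_ ?_
  · rw [← map_mul, ← map_mul]; congr 2; simp
  · rw [← map_star, ← map_star]; congr 2
    exact Prod.ext (by simp) (by simp)
  · rw [h7, Complex.ofReal_re]
    exact h0
  · rw [h7, Complex.ofReal_re]
    exact h1

/-- There are numbers `t k > 0` such that all partial sums of `∑ t k` are `< 1`.  For all such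
numbers, the functionals `(a, b) ↦ t k a + (1 - t k) b` are faithful tracial states of `ℂ × ℂ`,
the reduced free product `(A, φ)` of the `(ℂ × ℂ, weight (t k))`, `k ∈ ℕ`, exists, and for every
such `(A, φ)` the reduced free product `(B, ψ)` of `C([0,1])`, with the Lebesgue state, and
`(A, φ)` exists, and every such `B` is not isomorphic to `A`, as `A` has a nonzero homomorphism to
`ℂ` and `B` has none. -/
theorem result :
    (∃ t : ℕ → ℝ, (∀ k, 0 < t k) ∧ ∀ n, ∑ k ∈ Finset.range n, t k < 1) ∧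
    ∀ t : ℕ → ℝ, (∀ k, 0 < t k) → (∀ n, ∑ k ∈ Finset.range n, t k < 1) →
      (∀ k, IsFaithfulTrace (weight (t k))) ∧
      (∃ (A : Type) (_ : CStarAlgebra A) (φ : A →ₗ[ℂ] ℂ) (e : ∀ _ : ℕ, ℂ × ℂ →⋆ₐ[ℂ] A),
        IsReducedFreeProduct (fun _ => ℂ × ℂ) (fun k => weight (t k)) φ e) ∧
      ∀ (A : Type) [CStarAlgebra A] (φ : A →ₗ[ℂ] ℂ) (e : ∀ _ : ℕ, ℂ × ℂ →⋆ₐ[ℂ] A),
        IsReducedFreeProduct (fun _ => ℂ × ℂ) (fun k => weight (t k)) φ e →
        (∃ (B : Type) (_ : CStarAlgebra B) (ψ : B →ₗ[ℂ] ℂ), IsFreeProduct lebesgue φ ψ) ∧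
        Nonempty (A →ₐ[ℂ] ℂ) ∧
        ∀ (B : Type) [CStarAlgebra B] (ψ : B →ₗ[ℂ] ℂ), IsFreeProduct lebesgue φ ψ →
          IsEmpty (B →ₐ[ℂ] ℂ) ∧ IsEmpty (A ≃⋆ₐ[ℂ] B) := by
  refine ⟨⟨fun k => (1 / 2) ^ (k + 1), fun k => by positivity, fun n => ?_⟩, ?_⟩
  · have h : ∀ n : ℕ, ∑ k ∈ Finset.range n, ((1 : ℝ) / 2) ^ (k + 1) = 1 - (1 / 2) ^ n := by
      intro n
      induction n with
      | zero => simp
      | succ n ih => rw [Finset.sum_range_succ, ih, pow_succ]; ring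
    rw [h]
    have : (0 : ℝ) < (1 / 2) ^ n := by positivity
    linarith
  · intro t ht hs
    have ht1 : ∀ k, t k < 1 := by
      intro k
      have h2 := hs (k + 1)
      have h3 : t k ≤ ∑ j ∈ Finset.range (k + 1), t j :=
        Finset.single_le_sum (f := t) (fun j _ => (ht j).le) (Finset.self_mem_range_succ k)
      linarith
    have hw : ∀ k, IsFaithfulTrace (weight (t k)) := fun k => weight_trace (ht k) (ht1 k)
    refine ⟨hw, exists_family (C := fun _ => ℂ × ℂ) (σ := fun k => weight (t k))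
      (fun k => (hw k).1), ?_⟩
    intro A _ φ e h
    have hA := has_char hs h
    refine ⟨exists_product lebesgue_state h.state, hA, ?_⟩
    intro B _ ψ hB
    have hE := no_char (ht 0) (ht1 0) h hB
    refine ⟨hE, ⟨fun Φ => ?_⟩⟩
    obtain ⟨χ⟩ := hA
    exact hE.false (χ.comp (Φ.symm.toAlgEquiv : B →ₐ[ℂ] A))

end Pool.Agent.Results.MP_88a42c_an.NotAbsorbing
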